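import Mathlib

/-!
# Vector addition systems with states as language acceptors
-/

namespace Pool.Agent.Q255.VA

/-- A `d`-dimensional VASS over the alphabet `σ`: finitely many states `Q`, a finite set `T` of
transitions `(p, a, u, q)`, an initial configuration `q0(c0)` and a set `F` of accepting states. -/
structure VASS (σ : Type) where
  /-- the dimension -/
  d : ℕ
  /-- the states -/
  Q : Type
  finQ : Finite Q
  /-- the transitions (source, letter, update, target) -/
  T : Set (Q × σ × (Fin d → ℤ) × Q)
  finT : T.Finite
  /-- the initial state -/
  q0 : Q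
  /-- the initial vector -/
  c0 : Fin d → ℕ
  /-- the accepting states -/
  F : Set Q

variable {σ : Type}

namespace VASS

/-- Transitions (source, letter, update, target). -/
abbrev Tr (V : VASS σ) : Type := V.Q × σ × (Fin V.d → ℤ) × V.Q

/-- Configurations `q(v)`. -/
abbrev Cf (V : VASS σ) : Type := V.Q × (Fin V.d → ℕ)

/-- The letter of a transition. -/
def lab (V : VASS σ) (t : V.Tr) : σ := t.2.1

/-- The configuration reached by the transition `t` (meaningful if `t` can be fired). -/
def step (V : VASS σ) (c : V.Cf) (t : V.Tr) : V.Cf :=
  (t.2.2.2, fun i => ((c.2 i : ℤ) + t.2.2.1 i).toNat)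

/-- The transition `t` can be fired in the configuration `c`: it is a transition of `V`, its source
is the state of `c`, and the new vector is non-negative. -/
def Fires (V : VASS σ) (c : V.Cf) (t : V.Tr) : Prop :=
  t ∈ V.T ∧ t.1 = c.1 ∧ ∀ i, 0 ≤ (c.2 i : ℤ) + t.2.2.1 i

/-- The sequence of transitions can be fired in turn from the configuration `c`. -/
def Valid (V : VASS σ) : V.Cf → List V.Tr → Prop
  | _, [] => True
  | c, t :: l => V.Fires c t ∧ V.Valid (V.step c t) l

/-- The configuration reached at the end of a sequence of transitions. -/
def last (V : VASS σ) (c : V.Cf) (l : List V.Tr) : V.Cf := l.foldl V.step c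

/-- The accepting runs on the word `w`: the sequences of transitions with labels `w` which can be
fired in turn from the initial configuration and end in an accepting state. -/
def Acc (V : VASS σ) (w : List σ) : Set (List V.Tr) :=
  {l | l.map V.lab = w ∧ V.Valid (V.q0, V.c0) l ∧ (V.last (V.q0, V.c0) l).1 ∈ V.F}

/-- The recognised language (acceptance by states). -/
def Lang (V : VASS σ) : Set (List σ) := {w | (V.Acc w).Nonempty}

/-- `V` is `k`-ambiguous: every word has at most `k` accepting runs. -/
def Ambig (V : VASS σ) (k : ℕ) : Prop := ∀ w, (V.Acc w).encard ≤ k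

end VASS

end Pool.Agent.Q255.VA
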