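import Pool.Agent.Q255.VA.Pump

/-!
# Block words and the lower bound
-/

namespace Pool.Agent.Q255.VA

section words

variable {σ τ : Type} (a b : ℕ → σ)

/-- The word `a_0^{n_0} b_0^{m_0} ... a_{k-1}^{n_{k-1}} b_{k-1}^{m_{k-1}}`. -/
def W (n m : ℕ → ℕ) : ℕ → List σ
  | 0 => []
  | k + 1 => W n m k ++ List.replicate (n k) (a k) ++ List.replicate (m k) (b k)

/-- Concatenation of blocks. -/
def R (s t : ℕ → List τ) : ℕ → List τ
  | 0 => []
  | k + 1 => R s t k ++ s k ++ t k

theorem R_congr {s t s' t' : ℕ → List τ} {k : ℕ} (h : ∀ j < k, s j = s' j ∧ t j = t' j) :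
    R s t k = R s' t' k := by
  induction k with
  | zero => rfl
  | succ k ih =>
    simp only [R]
    rw [ih fun j hj => h j (by omega), (h k (by omega)).1, (h k (by omega)).2]

theorem R_inj {s t s' t' : ℕ → List τ} {k : ℕ}
    (hl : ∀ j < k, (s j).length = (s' j).length ∧ (t j).length = (t' j).length)
    (h : R s t k = R s' t' k) : ∀ j < k, s j = s' j ∧ t j = t' j := by
  induction k with
  | zero => intro j hj; omega
  | succ k ih =>
    simp only [R] at h
    obtain ⟨h1, h2⟩ := List.append_inj' h (hl k (by omega)).2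
    obtain ⟨h3, h4⟩ := List.append_inj' h1 (hl k (by omega)).1
    have h5 := ih (fun j hj => hl j (by omega)) h3
    intro j hj
    rcases Nat.lt_succ_iff_lt_or_eq.1 hj with hj | rfl
    · exact h5 j hj
    · exact ⟨h4, h2⟩

theorem R_prefix (s t : ℕ → List τ) {j k : ℕ} (h : j ≤ k) : R s t j <+: R s t k := by
  induction k, h using Nat.le_induction with
  | base => exact List.prefix_rfl
  | succ k _ ih =>
    refine ih.trans ?_
    simp only [R, List.append_assoc]
    exact List.prefix_append _ _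

theorem map_R {f : τ → σ} {s t : ℕ → List τ} {n m : ℕ → ℕ} {k : ℕ}
    (h : ∀ j < k, (s j).map f = List.replicate (n j) (a j) ∧
      (t j).map f = List.replicate (m j) (b j)) :
    (R s t k).map f = W a b n m k := by
  induction k with
  | zero => rfl
  | succ k ih =>
    simp only [R, W, List.map_append]
    rw [ih fun j hj => h j (by omega), (h k (by omega)).1, (h k (by omega)).2]

theorem split {f : τ → σ} {n m : ℕ → ℕ} (k : ℕ) (ρ : List τ) (h : ρ.map f = W a b n m k) :
    ∃ s t : ℕ → List τ, (∀ j < k, (s j).map f = List.replicate (n j) (a j) ∧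
      (t j).map f = List.replicate (m j) (b j)) ∧ ρ = R s t k := by
  induction k generalizing ρ with
  | zero =>
    refine ⟨fun _ => [], fun _ => [], fun j hj => by omega, ?_⟩
    simpa [W, R] using h
  | succ k ih =>
    simp only [W] at h
    obtain ⟨l12, l3, rfl, h12, h3⟩ := List.map_eq_append_iff.1 h
    obtain ⟨l1, l2, rfl, h1, h2⟩ := List.map_eq_append_iff.1 h12
    obtain ⟨s, t, hst, rfl⟩ := ih l1 h1
    refine ⟨Function.update s k l2, Function.update t k l3, fun j hj => ?_, ?_⟩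
    · rcases Nat.lt_succ_iff_lt_or_eq.1 hj with hj | rfl
      · rw [Function.update_of_ne hj.ne, Function.update_of_ne hj.ne]
        exact hst j hj
      · simp [h2, h3]
    · simp only [R, Function.update_self]
      congr 2
      exact R_congr fun j hj => by
        rw [Function.update_of_ne hj.ne, Function.update_of_ne hj.ne]
        exact ⟨rfl, rfl⟩

theorem R_length_le {s t : ℕ → List τ} {X Y M : ℕ → ℕ} (hM : ∀ j, M j + X j + Y j ≤ M (j + 1))
    {k : ℕ} (h : ∀ j < k, (s j).length ≤ X j ∧ (t j).length ≤ Y j) : (R s t k).length ≤ M k := by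
  induction k with
  | zero => simp [R]
  | succ k ih =>
    have h1 := ih fun j hj => h j (by omega)
    have h2 := h k (by omega)
    have h3 := hM k
    simp only [R, List.length_append]
    omega

end words

namespace VASS

variable {σ : Type} {V : VASS σ}

theorem valid_of_prefix {c : V.Cf} {l l' : List V.Tr} (h : l <+: l') (hv : V.Valid c l') :
    V.Valid c l := by
  obtain ⟨m, rfl⟩ := h
  exact ((valid_append _ _ _).1 hv).1

theorem pump_len {c : V.Cf} {s : List V.Tr} (hv : V.Valid c s) (hl : V.HasLoop c s) :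
    ∃ p, 1 ≤ p ∧ p ≤ s.length ∧ ∀ m : ℕ, ∃ s' : List V.Tr, s'.length = s.length + m * p ∧
      (∀ t ∈ s', t ∈ s) ∧ V.Dom c s s' := by
  obtain ⟨s1, s2, s3, rfl, h2, hle⟩ := hl
  refine ⟨s2.length, List.length_pos_iff.2 h2, by simp; omega, fun m =>
    ⟨s1 ++ (List.replicate (m + 1) s2).flatten ++ s3, ?_, ?_, dom_pump hv hle m⟩⟩
  · simp only [List.length_append, List.length_flatten, List.map_replicate, List.sum_replicate,
      smul_eq_mul]
    ring
  · intro t ht
    simp only [List.mem_append, List.mem_flatten, List.mem_replicate] at ht ⊢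
    rcases ht with (ht | ⟨l, ⟨-, rfl⟩, ht⟩) | ht
    · exact Or.inl (Or.inl ht)
    · exact Or.inl (Or.inr ht)
    · exact Or.inr ht

theorem map_lab_of_mem {s : List V.Tr} {x : σ} {n : ℕ} (h : ∀ t ∈ s, V.lab t = x)
    (hn : s.length = n) : s.map V.lab = List.replicate n x := by
  rw [List.eq_replicate_iff]
  refine ⟨by simpa using hn, fun y hy => ?_⟩
  obtain ⟨t, ht, rfl⟩ := List.mem_map.1 hy
  exact h t ht

theorem lab_of_map {s : List V.Tr} {x : σ} {n : ℕ} (h : s.map V.lab = List.replicate n x) :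
    (∀ t ∈ s, V.lab t = x) ∧ s.length = n := by
  rw [List.eq_replicate_iff] at h
  refine ⟨fun t ht => h.2 _ (List.mem_map.2 ⟨t, ht, rfl⟩), by simpa using h.1⟩

/-- The parameters of the construction. -/
structure Par (V : VASS σ) where
  A : ℕ → ℕ
  Y : ℕ → ℕ
  X : ℕ → ℕ
  M : ℕ → ℕ
  hM : ∀ j, M j + X j + Y j ≤ M (j + 1)
  hA : ∀ j, A j ≤ X j
  hY : ∀ j, Y j ≤ X j
  hX : ∀ j, (A j).factorial ∣ X j - A j
  h1 : ∀ j, ∀ l s : List V.Tr, l.length ≤ M j → V.Valid (V.q0, V.c0) (l ++ s) → A j ≤ s.length →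
    V.HasLoop (V.last (V.q0, V.c0) l) s
  h2 : ∀ j, ∀ l s : List V.Tr, l.length ≤ M j + A j → V.Valid (V.q0, V.c0) (l ++ s) →
    Y j ≤ s.length → V.HasLoop (V.last (V.q0, V.c0) l) s

theorem exists_par (V : VASS σ) : Nonempty (Par V) := by
  choose bd hbd using exists_bd V
  let X : ℕ → ℕ := fun M => bd M + (bd M).factorial * bd (M + bd M)
  let M : ℕ → ℕ := fun j => Nat.rec 0 (fun _ M => M + X M + bd (M + bd M)) j
  refine ⟨{ A := fun j => bd (M j), Y := fun j => bd (M j + bd (M j)), X := fun j => X (M j)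
            M := M, hM := fun j => le_rfl, hA := fun j => Nat.le_add_right _ _
            hY := fun j => ?_, hX := fun j => ?_, h1 := fun j => hbd _, h2 := fun j => hbd _ }⟩
  · have := Nat.factorial_pos (bd (M j))
    calc bd (M j + bd (M j)) ≤ (bd (M j)).factorial * bd (M j + bd (M j)) :=
          Nat.le_mul_of_pos_left _ this
      _ ≤ _ := Nat.le_add_left _ _
  · simp only [X, Nat.add_sub_cancel_left]
    exact dvd_mul_right _ _

variable (a b : ℕ → σ)

theorem pumped (P : Par V) (I : ℕ → Prop) [DecidablePred I] (K : ℕ) {ρ : List V.Tr}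
    (hρ : ρ ∈ V.Acc (W a b (fun j => if I j then P.X j else P.A j) P.Y K)) :
    ∃ s t : ℕ → List V.Tr, R s t K ∈ V.Acc (W a b P.X P.Y K) ∧
      (∀ j < K, (s j).length = P.X j ∧ (t j).length = P.Y j) ∧
      ∀ j < K, ¬ I j → V.HasLoop (V.last (V.q0, V.c0) (R s t j ++ s j)) (t j) := by
  obtain ⟨hlab, hval, hfin⟩ := hρ
  obtain ⟨s0, t0, hst, rfl⟩ := split a b K ρ hlab
  have hlen0 : ∀ j < K, (s0 j).length ≤ P.X j ∧ (t0 j).length ≤ P.Y j := by
    intro j hj
    have h1 := (lab_of_map (hst j hj).1).2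
    have h2 := (lab_of_map (hst j hj).2).2
    refine ⟨?_, h2.le⟩
    rw [h1]
    split_ifs
    · exact le_rfl
    · exact P.hA j
  have hRlen : ∀ j ≤ K, (R s0 t0 j).length ≤ P.M j := fun j hj =>
    R_length_le P.hM fun i hi => hlen0 i (by omega)
  have hvalj : ∀ j < K, V.Valid (V.q0, V.c0) (R s0 t0 j ++ s0 j ++ t0 j) := fun j hj =>
    valid_of_prefix (R_prefix s0 t0 (show j + 1 ≤ K from hj)) hval
  have hs : ∀ j, ∃ s' : List V.Tr, j < K → s'.length = P.X j ∧ (∀ t ∈ s', V.lab t = a j) ∧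
      V.Dom (V.last (V.q0, V.c0) (R s0 t0 j)) (s0 j) s' := by
    intro j
    by_cases hj : j < K
    swap
    · exact ⟨[], fun h => absurd h hj⟩
    have hl := lab_of_map (hst j hj).1
    have hv := hvalj j hj
    rw [valid_append, valid_append] at hv
    by_cases hI : I j
    · refine ⟨s0 j, fun _ => ⟨?_, hl.1, dom_refl hv.1.2⟩⟩
      rw [hl.2, if_pos hI]
    · rw [if_neg hI] at hl
      have hloop := P.h1 j (R s0 t0 j) (s0 j) (hRlen j hj.le)
        (((valid_append _ _ _).2 ⟨hv.1.1, hv.1.2⟩)) (by rw [hl.2])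
      obtain ⟨p, hp1, hp2, hp⟩ := pump_len hv.1.2 hloop
      rw [hl.2] at hp2
      obtain ⟨e, he⟩ : p ∣ P.X j - P.A j := (Nat.dvd_factorial hp1 hp2).trans (P.hX j)
      obtain ⟨s', h1, h2, h3⟩ := hp e
      refine ⟨s', fun _ => ⟨?_, fun t ht => hl.1 t (h2 t ht), h3⟩⟩
      rw [h1, hl.2, mul_comm, ← he]
      have := P.hA j
      omega
  choose s hs' using hs
  have hdom : ∀ k ≤ K, V.Dom (V.q0, V.c0) (R s0 t0 k) (R s t0 k) := by
    intro k hk
    induction k with
    | zero => exact dom_refl trivial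
    | succ k ih =>
      simp only [R]
      have hv := hvalj k hk
      rw [valid_append] at hv
      exact dom_append (dom_append (ih (by omega)) (hs' k hk).2.2) (dom_refl hv.2)
  have hK := hdom K le_rfl (V.q0, V.c0) (Le.refl _)
  refine ⟨s, t0, ⟨map_R a b fun j hj => ⟨map_lab_of_mem (hs' j hj).2.1 (hs' j hj).1, (hst j hj).2⟩,
    hK.1, ?_⟩, fun j hj => ⟨(hs' j hj).1, (lab_of_map (hst j hj).2).2⟩, fun j hj hI => ?_⟩
  · rw [← hK.2.1]
    exact hfin
  · have hv := hvalj j hj
    have hd : V.Dom (V.q0, V.c0) (R s0 t0 j ++ s0 j) (R s t0 j ++ s j) :=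
      dom_append (hdom j hj.le) (hs' j hj).2.2
    have hl := lab_of_map (hst j hj).1
    rw [if_neg hI] at hl
    have hloop := P.h2 j (R s0 t0 j ++ s0 j) (t0 j)
      (by rw [List.length_append, hl.2]; have := hRlen j hj.le; omega) hv
      (lab_of_map (hst j hj).2).2.ge
    rw [valid_append] at hv
    exact hasLoop_mono (hd _ (Le.refl _)).2 hv.2 hloop

theorem pumpB (P : Par V) (G : ℕ → Prop) (K : ℕ) {s t : ℕ → List V.Tr}
    (hacc : R s t K ∈ V.Acc (W a b P.X P.Y K))
    (hlen : ∀ j < K, (s j).length = P.X j ∧ (t j).length = P.Y j)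
    (hloop : ∀ j < K, G j → V.HasLoop (V.last (V.q0, V.c0) (R s t j ++ s j)) (t j)) :
    ∃ Y' : ℕ → ℕ, (∀ j < K, G j → P.X j < Y' j) ∧ (V.Acc (W a b P.X Y' K)).Nonempty := by
  obtain ⟨hlab, hval, hfin⟩ := hacc
  obtain ⟨s0, t0, hst, he⟩ := split a b K _ hlab
  have hl0 : ∀ j < K, (s0 j).length = P.X j ∧ (t0 j).length = P.Y j := fun j hj =>
    ⟨(lab_of_map (hst j hj).1).2, (lab_of_map (hst j hj).2).2⟩
  have heq := R_inj (fun j hj => ⟨(hlen j hj).1.trans (hl0 j hj).1.symm,
    (hlen j hj).2.trans (hl0 j hj).2.symm⟩) he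
  have hvalj : ∀ j < K, V.Valid (V.q0, V.c0) (R s t j ++ s j ++ t j) := fun j hj =>
    valid_of_prefix (R_prefix s t (show j + 1 ≤ K from hj)) hval
  have ht : ∀ j, ∃ t' : List V.Tr, j < K → ((G j → P.X j < t'.length) ∧
      (∀ x ∈ t', V.lab x = b j) ∧
      V.Dom (V.last (V.q0, V.c0) (R s t j ++ s j)) (t j) t') := by
    intro j
    by_cases hj : j < K
    swap
    · exact ⟨[], fun h => absurd h hj⟩
    have hl : ∀ x ∈ t j, V.lab x = b j := by
      rw [(heq j hj).2]
      exact (lab_of_map (hst j hj).2).1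
    have hv := hvalj j hj
    rw [valid_append] at hv
    by_cases hG : G j
    · obtain ⟨p, hp1, hp2, hp⟩ := pump_len hv.2 (hloop j hj hG)
      obtain ⟨t', h1, h2, h3⟩ := hp (P.X j + 1)
      refine ⟨t', fun _ => ⟨fun _ => ?_, fun x hx => hl x (h2 x hx), h3⟩⟩
      rw [h1]
      nlinarith
    · exact ⟨t j, fun _ => ⟨fun h => absurd h hG, hl, dom_refl hv.2⟩⟩
  choose t' ht' using ht
  have hdom : ∀ k ≤ K, V.Dom (V.q0, V.c0) (R s t k) (R s t' k) := by
    intro k hk
    induction k with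
    | zero => exact dom_refl trivial
    | succ k ih =>
      simp only [R]
      have hv := hvalj k hk
      rw [valid_append, valid_append] at hv
      exact dom_append (dom_append (ih (by omega)) (dom_refl hv.1.2)) (ht' k hk).2.2
  have hK := hdom K le_rfl (V.q0, V.c0) (Le.refl _)
  refine ⟨fun j => (t' j).length, fun j hj hG => (ht' j hj).1 hG, R s t' K,
    map_R a b fun j hj => ⟨?_, map_lab_of_mem (ht' j hj).2.1 rfl⟩, hK.1, ?_⟩
  · rw [(heq j hj).1]
    exact (hst j hj).1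
  · rw [← hK.2.1]
    exact hfin

/-- The abstract lower bound. -/
theorem lower (k₁ k₂ : ℕ) (L : Set (List σ)) (V : VASS σ) (hL : V.Lang = L)
    (H1 : ∀ n m : ℕ → ℕ, ∀ i₁ < k₁, ∀ i₂ < k₂, m i₁ ≤ n i₁ → m (k₁ + i₂) ≤ n (k₁ + i₂) →
      W a b n m (k₁ + k₂) ∈ L)
    (H2 : ∀ n m : ℕ → ℕ, W a b n m (k₁ + k₂) ∈ L →
      (∃ i₁ < k₁, m i₁ ≤ n i₁) ∧ ∃ i₂ < k₂, m (k₁ + i₂) ≤ n (k₁ + i₂)) (n : ℕ)
    (hn : n < k₁ * k₂) : ¬ V.Ambig n := by
  intro hamb
  obtain ⟨P⟩ := exists_par V
  set K := k₁ + k₂ with hK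
  have hex : ∀ x : Fin k₁ × Fin k₂, ∃ s t : ℕ → List V.Tr,
      R s t K ∈ V.Acc (W a b P.X P.Y K) ∧
      (∀ j < K, (s j).length = P.X j ∧ (t j).length = P.Y j) ∧
      ∀ j < K, ¬ (j = x.1 ∨ j = k₁ + x.2) →
        V.HasLoop (V.last (V.q0, V.c0) (R s t j ++ s j)) (t j) := by
    intro x
    have h : W a b (fun j => if (j = x.1 ∨ j = k₁ + x.2) then P.X j else P.A j) P.Y K ∈ V.Lang := by
      rw [hL]
      refine H1 _ _ x.1 x.1.2 x.2 x.2.2 ?_ ?_
      · simpa using P.hY _
      · simpa using P.hY _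
    obtain ⟨ρ, hρ⟩ := h
    exact pumped a b P (fun j => j = x.1 ∨ j = k₁ + x.2) K hρ
  choose s t hacc hlen hloop using hex
  set f : Fin k₁ × Fin k₂ → List V.Tr := fun x => R (s x) (t x) K with hf
  have hninj : ¬ Function.Injective f := by
    intro hinj
    have h1 : ENat.card (Fin k₁ × Fin k₂) ≤ n := hinj.encard_range.trans
      ((Set.encard_le_encard (by rintro _ ⟨x, rfl⟩; exact hacc x)).trans (hamb (W a b P.X P.Y K)))
    simp only [ENat.card_eq_coe_fintype_card, Fintype.card_prod, Fintype.card_fin] at h1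
    have h2 : k₁ * k₂ ≤ n := by exact_mod_cast h1
    omega
  rw [Function.Injective] at hninj
  push Not at hninj
  obtain ⟨x, y, hxy, hne⟩ := hninj
  have heq := R_inj (fun j hj => ⟨(hlen x j hj).1.trans (hlen y j hj).1.symm,
    (hlen x j hj).2.trans (hlen y j hj).2.symm⟩) hxy
  have hc : ∀ j < K, R (s x) (t x) j = R (s y) (t y) j := fun j hj =>
    R_congr fun i hi => heq i (by omega)
  have hly : ∀ j < K, ¬ (j = y.1 ∨ j = k₁ + y.2) →
      V.HasLoop (V.last (V.q0, V.c0) (R (s x) (t x) j ++ s x j)) (t x j) := by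
    intro j hj h
    rw [hc j hj, (heq j hj).1, (heq j hj).2]
    exact hloop y j hj h
  have hx1 := x.1.2
  have hx2 := x.2.2
  have hy1 := y.1.2
  have hy2 := y.2.2
  by_cases h1 : (x.1 : ℕ) = y.1
  · have h2 : (x.2 : ℕ) ≠ y.2 := fun h2 => hne (Prod.ext (Fin.ext h1) (Fin.ext h2))
    obtain ⟨Y', hY', hne'⟩ := pumpB a b P (fun j => k₁ ≤ j) K (hacc x) (hlen x) (by
      intro j hj hG
      by_cases h3 : j = x.1 ∨ j = k₁ + x.2
      · exact hly j hj (by omega)
      · exact hloop x j hj h3)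
    have h4 := (H2 P.X Y' (by rw [← hL]; exact hne')).2
    obtain ⟨i, hi, hle⟩ := h4
    have := hY' (k₁ + i) (by omega) (by omega)
    omega
  · obtain ⟨Y', hY', hne'⟩ := pumpB a b P (fun j => j < k₁) K (hacc x) (hlen x) (by
      intro j hj hG
      by_cases h3 : j = x.1 ∨ j = k₁ + x.2
      · exact hly j hj (by omega)
      · exact hloop x j hj h3)
    have h4 := (H2 P.X Y' (by rw [← hL]; exact hne')).1
    obtain ⟨i, hi, hle⟩ := h4
    have := hY' i (by omega) hi
    omega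

end VASS

end Pool.Agent.Q255.VA
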