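import Pool.Agent.Q255.VA.Defs

/-!
# Finite Dickson lemma and pumping
-/

namespace Pool.Agent.Q255.VA

section wqo

variable {α : Type*} (r : α → α → Prop) (next : α → Set α)

/-- Bad histories (most recent first). -/
def Bad (h : List α) : Prop := h.Pairwise fun x y => ¬ r y x

def Ext (h' h : List α) : Prop := ∃ c, h' = c :: h ∧ Bad r h'

theorem wf_ext (hr : ∀ f : ℕ → α, ∃ m n, m < n ∧ r (f m) (f n)) : WellFounded (Ext r) := by
  rw [wellFounded_iff_isEmpty_descending_chain]
  refine ⟨fun ⟨h, hh⟩ => ?_⟩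
  choose c hc using hh
  have hmem : ∀ m n, m < n → c m ∈ h n := by
    intro m n hmn
    induction n, hmn using Nat.le_induction with
    | base => rw [(hc m).1]; simp
    | succ n _ ih => rw [(hc n).1]; exact List.mem_cons_of_mem _ ih
  obtain ⟨m, n, hmn, hr'⟩ := hr c
  have hb := (hc n).2
  rw [(hc n).1] at hb
  exact (List.pairwise_cons.1 hb).1 _ (hmem m n hmn) hr'

theorem bound_aux (hr : ∀ f : ℕ → α, ∃ m n, m < n ∧ r (f m) (f n))
    (hfin : ∀ a, (next a).Finite) :
    ∀ h : List α, ∀ c h0, h = c :: h0 → Bad r h →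
      ∃ N : ℕ, ∀ l : List α, List.IsChain (fun a b => b ∈ next a) (c :: l) →
        Bad r (l.reverse ++ h) → l.length ≤ N := by
  intro h
  induction h using (wf_ext r hr).induction with
  | _ h ih =>
    intro c h0 hh hbad
    have hch : ∀ c' : α, ∃ N : ℕ, ∀ l : List α, List.IsChain (fun a b => b ∈ next a) (c' :: l) →
        Bad r (l.reverse ++ (c' :: h)) → l.length ≤ N := by
      intro c'
      by_cases hb : Bad r (c' :: h)
      · exact ih (c' :: h) ⟨c', rfl, hb⟩ c' h rfl hb
      · refine ⟨0, fun l _ hl => absurd ?_ hb⟩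
        exact hl.sublist (List.sublist_append_right _ _)
    choose N hN using hch
    obtain ⟨B, hB⟩ := ((hfin c).image N).bddAbove
    refine ⟨B + 1, fun l hl hlb => ?_⟩
    cases l with
    | nil => simp
    | cons c' l =>
      rw [List.isChain_cons_cons] at hl
      have h1 : l.length ≤ N c' := by
        apply hN c' l hl.2
        simpa [List.reverse_cons, List.append_assoc] using hlb
      have h2 : N c' ≤ B := hB (Set.mem_image_of_mem N hl.1)
      simp only [List.length_cons]
      omega

theorem bound (hr : ∀ f : ℕ → α, ∃ m n, m < n ∧ r (f m) (f n))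
    (hfin : ∀ a, (next a).Finite) (S : Set α) (hS : S.Finite) :
    ∃ N : ℕ, ∀ c ∈ S, ∀ l : List α, List.IsChain (fun a b => b ∈ next a) (c :: l) →
      N ≤ l.length → ¬ (c :: l).Pairwise (fun x y => ¬ r x y) := by
  have h : ∀ c : α, ∃ N : ℕ, ∀ l : List α, List.IsChain (fun a b => b ∈ next a) (c :: l) →
        Bad r (l.reverse ++ [c]) → l.length ≤ N := fun c =>
    bound_aux r next hr hfin [c] c [] rfl (by simp [Bad])
  choose N hN using h
  obtain ⟨B, hB⟩ := (hS.image N).bddAbove
  refine ⟨B + 1, fun c hc l hl hlen hp => ?_⟩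
  have h1 := hN c l hl (by
    have : Bad r ((c :: l).reverse) := by
      unfold Bad
      rw [List.pairwise_reverse]
      exact hp
    simpa using this)
  have h2 : N c ≤ B := hB (Set.mem_image_of_mem N hc)
  omega

end wqo

namespace VASS

variable {σ : Type} (V : VASS σ)

/-- Same state and smaller vector. -/
def Le (c c' : V.Cf) : Prop := c.1 = c'.1 ∧ c.2 ≤ c'.2

variable {V}

theorem Le.refl (c : V.Cf) : V.Le c c := ⟨rfl, le_rfl⟩

theorem Le.trans {a b c : V.Cf} (h : V.Le a b) (h' : V.Le b c) : V.Le a c :=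
  ⟨h.1.trans h'.1, h.2.trans h'.2⟩

theorem wqo (f : ℕ → V.Cf) : ∃ m n, m < n ∧ V.Le (f m) (f n) := by
  have := V.finQ
  obtain ⟨q, hq⟩ := Finite.exists_infinite_fiber (fun n => (f n).1)
  have hinf : (((fun n => (f n).1) ⁻¹' {q} : Set ℕ)).Infinite := Set.infinite_coe_iff.1 hq
  set g := Nat.nth (fun n => (f n).1 = q) with hg
  have hinf' : {n | (f n).1 = q}.Infinite := hinf
  have hgm : StrictMono g := Nat.nth_strictMono hinf'
  have hgq : ∀ n, (f (g n)).1 = q := fun n => Nat.nth_mem_of_infinite hinf' n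
  have hwqo : @WellQuasiOrdered (Fin V.d → ℕ) (· ≤ ·) := wellQuasiOrdered_le
  obtain ⟨m, n, hmn, hle⟩ := hwqo (fun n => (f (g n)).2)
  exact ⟨g m, g n, hgm hmn, by rw [hgq, hgq], hle⟩

theorem valid_append (c : V.Cf) (l l' : List V.Tr) :
    V.Valid c (l ++ l') ↔ V.Valid c l ∧ V.Valid (V.last c l) l' := by
  induction l generalizing c with
  | nil => simp [Valid, last]
  | cons t l ih =>
    simp only [List.cons_append, Valid, ih, last, List.foldl_cons, and_assoc]

theorem last_append (c : V.Cf) (l l' : List V.Tr) :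
    V.last c (l ++ l') = V.last (V.last c l) l' := by
  simp [last, List.foldl_append]

theorem last_nil (c : V.Cf) : V.last c [] = c := rfl

theorem step_mono {c c' : V.Cf} (h : V.Le c c') {t : V.Tr} (ht : V.Fires c t) :
    V.Fires c' t ∧ V.Le (V.step c t) (V.step c' t) := by
  have h2 : ∀ i, (c.2 i : ℤ) ≤ c'.2 i := fun i => by exact_mod_cast h.2 i
  refine ⟨⟨ht.1, ht.2.1.trans h.1, fun i => ?_⟩, rfl, fun i => ?_⟩
  · have := ht.2.2 i
    linarith [h2 i]
  · simp only [step]
    exact Int.toNat_le_toNat (by linarith [h2 i])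

theorem valid_mono {c c' : V.Cf} (h : V.Le c c') {l : List V.Tr} (hl : V.Valid c l) :
    V.Valid c' l ∧ V.Le (V.last c l) (V.last c' l) := by
  induction l generalizing c c' with
  | nil => exact ⟨trivial, h⟩
  | cons t l ih =>
    have h1 := step_mono h hl.1
    have h2 := ih h1.2 hl.2
    exact ⟨⟨h1.1, h2.1⟩, h2.2⟩

/-- The effect of a valid sequence does not depend on the configuration. -/
theorem last_sub {c c' : V.Cf} {l : List V.Tr} (hl : V.Valid c l) (hl' : V.Valid c' l) (i : Fin V.d) :
    ((V.last c l).2 i : ℤ) - c.2 i = ((V.last c' l).2 i : ℤ) - c'.2 i := by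
  induction l generalizing c c' with
  | nil => simp [last]
  | cons t l ih =>
    have h := ih hl.2 hl'.2
    have e1 : (((V.step c t).2 i : ℕ) : ℤ) = (c.2 i : ℤ) + t.2.2.1 i := by
      simp only [step]
      exact Int.toNat_of_nonneg (hl.1.2.2 i)
    have e2 : (((V.step c' t).2 i : ℕ) : ℤ) = (c'.2 i : ℤ) + t.2.2.1 i := by
      simp only [step]
      exact Int.toNat_of_nonneg (hl'.1.2.2 i)
    have e3 : V.last c (t :: l) = V.last (V.step c t) l := rfl
    have e4 : V.last c' (t :: l) = V.last (V.step c' t) l := rfl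
    rw [e3, e4]
    linarith

theorem last_state {c c' : V.Cf} (h : c.1 = c'.1) (l : List V.Tr) :
    (V.last c l).1 = (V.last c' l).1 := by
  induction l generalizing c c' with
  | nil => exact h
  | cons t l ih => exact ih (c := V.step c t) (c' := V.step c' t) rfl

variable (V)

/-- The segment `s` read from `c` contains a non-negative loop. -/
def HasLoop (c : V.Cf) (s : List V.Tr) : Prop :=
  ∃ s1 s2 s3, s = s1 ++ s2 ++ s3 ∧ s2 ≠ [] ∧ V.Le (V.last c s1) (V.last c (s1 ++ s2))

/-- From every configuration above `c` the segment `s'` can be fired and leads above the end of `s`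
read from `c`. -/
def Dom (c : V.Cf) (s s' : List V.Tr) : Prop :=
  ∀ c', V.Le c c' → V.Valid c' s' ∧ V.Le (V.last c s) (V.last c' s')

variable {V}

theorem dom_refl {c : V.Cf} {s : List V.Tr} (h : V.Valid c s) : V.Dom c s s :=
  fun _ hc' => valid_mono hc' h

theorem dom_append {c : V.Cf} {s s' t t' : List V.Tr} (h : V.Dom c s s')
    (h' : V.Dom (V.last c s) t t') : V.Dom c (s ++ t) (s' ++ t') := by
  intro c' hc'
  obtain ⟨h1, h2⟩ := h c' hc'
  obtain ⟨h3, h4⟩ := h' _ h2
  refine ⟨(valid_append _ _ _).2 ⟨h1, h3⟩, ?_⟩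
  rw [last_append, last_append]
  exact h4

theorem hasLoop_mono {c c' : V.Cf} (h : V.Le c c') {s : List V.Tr} (hs : V.Valid c s)
    (hl : V.HasLoop c s) : V.HasLoop c' s := by
  obtain ⟨s1, s2, s3, rfl, h2, hle⟩ := hl
  refine ⟨s1, s2, s3, rfl, h2, ?_⟩
  rw [List.append_assoc, valid_append, valid_append] at hs
  obtain ⟨v1, v2, -⟩ := hs
  have m1 := valid_mono h v1
  have m2 := valid_mono m1.2 v2
  rw [last_append] at hle ⊢
  refine ⟨?_, fun i => ?_⟩
  · rw [← m1.2.1, ← m2.2.1]
    exact hle.1
  · have e := last_sub v2 m2.1 i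
    have h3 : ((V.last c s1).2 i : ℤ) ≤ (V.last (V.last c s1) s2).2 i := by
      exact_mod_cast hle.2 i
    have h4 : ((V.last c' s1).2 i : ℤ) ≤ (V.last (V.last c' s1) s2).2 i := by linarith
    exact_mod_cast h4

/-- Pumping a non-negative loop `m + 1` times. -/
theorem dom_pump {c : V.Cf} {s1 s2 s3 : List V.Tr} (hs : V.Valid c (s1 ++ s2 ++ s3))
    (hle : V.Le (V.last c s1) (V.last c (s1 ++ s2))) (m : ℕ) :
    V.Dom c (s1 ++ s2 ++ s3) (s1 ++ (List.replicate (m + 1) s2).flatten ++ s3) := by
  rw [List.append_assoc, valid_append, valid_append] at hs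
  obtain ⟨v1, v2, v3⟩ := hs
  rw [last_append] at hle
  have key : ∀ m : ℕ, V.Dom (V.last c s1) s2 (List.replicate (m + 1) s2).flatten := by
    intro m
    induction m with
    | zero => simpa using dom_refl v2
    | succ m ih =>
      intro c' hc'
      have h1 := valid_mono hc' v2
      have h2 : V.Le (V.last c s1) (V.last c' s2) := hle.trans h1.2
      have h3 := ih _ h2
      rw [List.replicate_succ, List.flatten_cons]
      refine ⟨(valid_append _ _ _).2 ⟨h1.1, h3.1⟩, ?_⟩
      rw [last_append]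
      exact h3.2
  have h := dom_append (dom_append (dom_refl v1) (key m)) (t := s3) (t' := s3) (by
    rw [last_append]
    exact dom_refl v3)
  exact h

/-- The configurations visited by a run. -/
def visited (V : VASS σ) : V.Cf → List V.Tr → List V.Cf
  | _, [] => []
  | c, t :: l => V.step c t :: visited V (V.step c t) l

theorem visited_length (c : V.Cf) (l : List V.Tr) : (visited V c l).length = l.length := by
  induction l generalizing c with
  | nil => rfl
  | cons t l ih => simp [visited, ih]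

theorem visited_chain {c : V.Cf} {l : List V.Tr} (h : V.Valid c l) :
    List.IsChain (fun a b => b ∈ {b | ∃ t ∈ V.T, b = V.step a t}) (c :: visited V c l) := by
  induction l generalizing c with
  | nil => simp [visited]
  | cons t l ih =>
    simp only [visited]
    rw [List.isChain_cons_cons]
    exact ⟨⟨t, h.1.1, rfl⟩, ih h.2⟩

theorem visited_mem {c x : V.Cf} {l : List V.Tr} (h : x ∈ visited V c l) :
    ∃ l1 l2, l = l1 ++ l2 ∧ l1 ≠ [] ∧ x = V.last c l1 := by
  induction l generalizing c with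
  | nil => simp [visited] at h
  | cons t l ih =>
    simp only [visited, List.mem_cons] at h
    rcases h with rfl | h
    · exact ⟨[t], l, rfl, by simp, rfl⟩
    · obtain ⟨l1, l2, rfl, -, hx⟩ := ih h
      exact ⟨t :: l1, l2, rfl, by simp, hx⟩

theorem loop_of_not_pairwise {c : V.Cf} {l : List V.Tr}
    (h : ¬ (c :: visited V c l).Pairwise (fun x y => ¬ V.Le x y)) : V.HasLoop c l := by
  induction l generalizing c with
  | nil => simp [visited] at h
  | cons t l ih =>
    rw [List.pairwise_cons] at h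
    by_cases h1 : ∀ a' ∈ visited V c (t :: l), ¬ V.Le c a'
    · have h2 : ¬ (V.step c t :: visited V (V.step c t) l).Pairwise (fun x y => ¬ V.Le x y) :=
        fun h3 => h ⟨h1, h3⟩
      obtain ⟨s1, s2, s3, rfl, hs2, hle⟩ := ih h2
      exact ⟨t :: s1, s2, s3, by simp, hs2, hle⟩
    · push Not at h1
      obtain ⟨x, hx, hle⟩ := h1
      obtain ⟨l1, l2, e, hl1, rfl⟩ := visited_mem hx
      exact ⟨[], l1, l2, by simpa using e, hl1, by simpa [last_nil] using hle⟩

/-- The configurations which can be reached within `M` steps. -/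
def Reach (V : VASS σ) (M : ℕ) : Set V.Cf :=
  {c | ∃ l, V.Valid (V.q0, V.c0) l ∧ l.length ≤ M ∧ c = V.last (V.q0, V.c0) l}

theorem reach_finite (M : ℕ) : (Reach V M).Finite := by
  induction M with
  | zero =>
    refine (Set.finite_singleton (V.q0, V.c0)).subset ?_
    rintro c ⟨l, -, hl, rfl⟩
    have : l = [] := List.length_eq_zero_iff.1 (Nat.le_zero.1 hl)
    subst this
    rfl
  | succ M ih =>
    have hfin : ((fun p : V.Cf × V.Tr => V.step p.1 p.2) '' (Reach V M ×ˢ V.T)).Finite :=
      (ih.prod V.finT).image _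
    refine (ih.union hfin).subset ?_
    rintro c ⟨l, hv, hl, rfl⟩
    rcases List.eq_nil_or_concat l with rfl | ⟨l', t, rfl⟩
    · exact Or.inl ⟨[], trivial, by simp, rfl⟩
    · rw [List.concat_eq_append] at hv hl ⊢
      rw [valid_append] at hv
      right
      refine ⟨(V.last (V.q0, V.c0) l', t), ⟨⟨l', hv.1, ?_, rfl⟩, hv.2.1.1⟩, ?_⟩
      · simp at hl
        omega
      · rw [last_append]
        rfl

theorem exists_bd (V : VASS σ) (M : ℕ) : ∃ N : ℕ, ∀ l s : List V.Tr, l.length ≤ M →
    V.Valid (V.q0, V.c0) (l ++ s) → N ≤ s.length → V.HasLoop (V.last (V.q0, V.c0) l) s := by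
  obtain ⟨N, hN⟩ := bound V.Le (fun a => {b | ∃ t ∈ V.T, b = V.step a t}) wqo
    (fun a => by
      refine (V.finT.image (fun t => V.step a t)).subset ?_
      rintro b ⟨t, ht, rfl⟩
      exact ⟨t, ht, rfl⟩) (Reach V M) (reach_finite M)
  refine ⟨N, fun l s hl hv hs => loop_of_not_pairwise ?_⟩
  rw [valid_append] at hv
  exact hN _ ⟨l, hv.1, hl, rfl⟩ _ (visited_chain hv.2) (by rwa [visited_length])

end VASS

end Pool.Agent.Q255.VA
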