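import Pool.Agent.Q255.VA.Lower

/-!
# The union of `k` one-counter languages
-/

namespace Pool.Agent.Q255.VA

open VASS

variable {σ : Type} [DecidableEq σ]

/-- The weight of a letter for the `i`-th counter. -/
def wt (a b : ℕ → σ) (i : ℕ) (l : σ) : ℤ := if l = a i then 1 else if l = b i then -1 else 0

/-- Guess one of `k` counters `e j` with the first letter and follow it. -/
def U [Finite σ] (a b : ℕ → σ) (k : ℕ) (e : ℕ → ℕ) : VASS σ where
  d := 1
  Q := Option (Fin k)
  finQ := inferInstance
  T := {t | ∃ j : Fin k, (t.1 = none ∨ t.1 = some j) ∧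
    t.2.2 = (fun _ => wt a b (e j) t.2.1, some j)}
  finT := by
    have h : {t : Option (Fin k) × σ × (Fin 1 → ℤ) × Option (Fin k) | ∃ j : Fin k,
        (t.1 = none ∨ t.1 = some j) ∧ t.2.2 = (fun _ => wt a b (e j) t.2.1, some j)} ⊆
        Set.range (fun p : Option (Fin k) × σ × Fin k =>
          (p.1, p.2.1, (fun _ => wt a b (e p.2.2) p.2.1 : Fin 1 → ℤ), some p.2.2)) := by
      rintro ⟨p, l, u, q⟩ ⟨j, -, h⟩
      refine ⟨(p, l, j), ?_⟩
      simp only at h
      rw [h]
    exact (Set.finite_range _).subset h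
  q0 := none
  c0 := fun _ => 0
  F := Set.univ

variable [Finite σ] (a b : ℕ → σ) (k : ℕ) (e : ℕ → ℕ)

/-- The transitions once the counter is chosen. -/
def det (j : Fin k) (l : σ) : (U a b k e).Tr := (some j, l, fun _ => wt a b (e j) l, some j)

/-- The run which chooses the counter `j`. -/
def runj (j : Fin k) : List σ → List (U a b k e).Tr
  | [] => []
  | l :: w => (none, l, fun _ => wt a b (e j) l, some j) :: w.map (det a b k e j)

theorem eq_det {j : Fin k} {c : (U a b k e).Cf} (hc : c.1 = some j) {ρ : List (U a b k e).Tr}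
    (h : (U a b k e).Valid c ρ) : ρ = (ρ.map (U a b k e).lab).map (det a b k e j) := by
  induction ρ generalizing c with
  | nil => rfl
  | cons t ρ ih =>
    obtain ⟨j', hj', ht⟩ := h.1.1
    have h1 : t.1 = some j := h.1.2.1.trans hc
    have hjj : j' = j := by
      rcases hj' with h2 | h2
      · rw [h1] at h2; exact absurd h2 (by simp)
      · rw [h1] at h2; exact (Option.some_injective _ h2).symm
    subst hjj
    have h3 : (VASS.step _ c t).1 = some j' := by
      show t.2.2.2 = some j'
      rw [ht]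
    have h4 := ih h3 h.2
    simp only [List.map_cons]
    rw [← h4]
    congr 1
    obtain ⟨p, l, u, q⟩ := t
    simp only at h1 ht
    rw [h1, ht]
    rfl

theorem acc_sub (hk : 0 < k) (w : List σ) :
    (U a b k e).Acc w ⊆ Set.range (fun j => runj a b k e j w) := by
  rintro ρ ⟨hlab, hval, -⟩
  cases ρ with
  | nil =>
    simp only [List.map_nil] at hlab
    subst hlab
    exact ⟨⟨0, hk⟩, rfl⟩
  | cons t ρ =>
    obtain ⟨j, -, ht⟩ := hval.1.1
    refine ⟨j, ?_⟩
    simp only [List.map_cons] at hlab
    subst hlab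
    simp only [runj]
    have h3 : (VASS.step _ ((U a b k e).q0, (U a b k e).c0) t).1 = some j := by
      show t.2.2.2 = some j
      rw [ht]
    rw [← eq_det a b k e h3 hval.2]
    congr 1
    have h1 : t.1 = none := hval.1.2.1
    obtain ⟨p, l, u, q⟩ := t
    simp only at h1 ht
    rw [h1, ht]
    rfl

theorem U_ambig (hk : 0 < k) : (U a b k e).Ambig k := by
  intro w
  refine (Set.encard_le_encard (acc_sub a b k e hk w)).trans ?_
  rw [← Set.image_univ]
  refine (Set.encard_image_le _ _).trans ?_
  simp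

/-- All partial sums of the weights, starting with `v`, are non-negative. -/
def NP (u : σ → ℤ) : ℤ → List σ → Prop
  | _, [] => True
  | v, l :: w => 0 ≤ v + u l ∧ NP u (v + u l) w

omit [DecidableEq σ] [Finite σ] in
theorem NP_append (u : σ → ℤ) (v : ℤ) (w w' : List σ) :
    NP u v (w ++ w') ↔ NP u v w ∧ NP u (v + (w.map u).sum) w' := by
  induction w generalizing v with
  | nil => simp [NP]
  | cons l w ih =>
    simp only [List.cons_append, NP, ih, List.map_cons, List.sum_cons, and_assoc, add_assoc]

omit [DecidableEq σ] [Finite σ] in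
theorem NP_replicate_nonneg (u : σ → ℤ) {v : ℤ} (hv : 0 ≤ v) {x : σ} (hx : 0 ≤ u x) (n : ℕ) :
    NP u v (List.replicate n x) := by
  induction n generalizing v with
  | zero => trivial
  | succ n ih =>
    rw [List.replicate_succ]
    exact ⟨by omega, ih (by omega)⟩

omit [DecidableEq σ] [Finite σ] in
theorem NP_replicate_neg (u : σ → ℤ) {v : ℤ} {x : σ} (hx : u x = -1) (n : ℕ) (hv : (n : ℤ) ≤ v) :
    NP u v (List.replicate n x) := by
  induction n generalizing v with
  | zero => trivial
  | succ n ih =>
    rw [List.replicate_succ]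
    push_cast at hv
    exact ⟨by rw [hx]; omega, ih (by rw [hx]; omega)⟩

theorem valid_det {j : Fin k} (w : List σ) (v : Fin 1 → ℕ)
    (h : NP (wt a b (e j)) (v 0) w) : (U a b k e).Valid (some j, v) (w.map (det a b k e j)) := by
  induction w generalizing v with
  | nil => trivial
  | cons l w ih =>
    obtain ⟨h1, h2⟩ := h
    simp only [List.map_cons]
    refine ⟨⟨⟨j, Or.inr rfl, rfl⟩, rfl, fun i => ?_⟩, ih _ ?_⟩
    · have hi : i = (0 : Fin 1) := Subsingleton.elim (α := Fin 1) _ _
      rw [hi]
      exact h1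
    · have h3 : (((((v 0 : ℕ) : ℤ) + wt a b (e j) l).toNat : ℕ) : ℤ) =
          (v 0 : ℤ) + wt a b (e j) l := Int.toNat_of_nonneg h1
      show NP (wt a b (e j)) (((((v 0 : ℕ) : ℤ) + wt a b (e j) l).toNat : ℕ) : ℤ) w
      rw [h3]
      exact h2

theorem mem_lang_of {j : ℕ} (hj : j < k) (w : List σ) (h : NP (wt a b (e j)) 0 w) :
    w ∈ (U a b k e).Lang := by
  cases w with
  | nil => exact ⟨[], rfl, trivial, trivial⟩
  | cons l w =>
    obtain ⟨h1, h2⟩ := h
    rw [zero_add] at h1 h2
    refine ⟨runj a b k e ⟨j, hj⟩ (l :: w), ?_, ?_, trivial⟩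
    · simp only [runj, List.map_cons, List.map_map]
      congr 1
      have : (U a b k e).lab ∘ det a b k e ⟨j, hj⟩ = id := rfl
      rw [this, List.map_id]
    · refine ⟨⟨⟨⟨j, hj⟩, Or.inl rfl, rfl⟩, rfl, fun i => ?_⟩, ?_⟩
      · show 0 ≤ ((0 : ℕ) : ℤ) + wt a b (e j) l
        simpa using h1
      · refine valid_det a b k e w _ ?_
        show NP (wt a b (e j)) (((((0 : ℕ) : ℤ) + wt a b (e j) l).toNat : ℕ) : ℤ) w
        rw [Nat.cast_zero, zero_add, Int.toNat_of_nonneg h1]
        exact h2

theorem last_det {j : Fin k} (w : List σ) (c : (U a b k e).Cf)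
    (h : (U a b k e).Valid c (w.map (det a b k e j))) :
    (0 : ℤ) ≤ (c.2 (0 : Fin 1) : ℤ) + (w.map (wt a b (e j))).sum := by
  induction w generalizing c with
  | nil => simp
  | cons l w ih =>
    simp only [List.map_cons] at h
    have h1 := ih _ h.2
    have h2 : (0 : ℤ) ≤ (c.2 (0 : Fin 1) : ℤ) + wt a b (e j) l := h.1.2.2 (0 : Fin 1)
    have h3 : (((VASS.step _ c (det a b k e j l)).2 (0 : Fin 1) : ℕ) : ℤ) =
        (c.2 (0 : Fin 1) : ℤ) + wt a b (e j) l :=
      Int.toNat_of_nonneg h2
    rw [h3] at h1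
    simp only [List.map_cons, List.sum_cons]
    linarith

theorem sum_of_mem_lang (hk : 0 < k) {w : List σ} (h : w ∈ (U a b k e).Lang) :
    ∃ j < k, (0 : ℤ) ≤ (w.map (wt a b (e j))).sum := by
  obtain ⟨ρ, hρ⟩ := h
  obtain ⟨j, rfl⟩ := acc_sub a b k e hk w hρ
  refine ⟨j, j.2, ?_⟩
  cases w with
  | nil => simp
  | cons l w =>
    have hv := hρ.2.1
    have h1 := last_det a b k e w _ hv.2
    have h2 : (0 : ℤ) ≤ ((0 : ℕ) : ℤ) + wt a b (e j) l := hv.1.2.2 (0 : Fin 1)
    have h3 : (((VASS.step (U a b k e) ((U a b k e).q0, (U a b k e).c0)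
        (none, l, fun _ => wt a b (e j) l, some j)).2 (0 : Fin 1) : ℕ) : ℤ) =
        ((0 : ℕ) : ℤ) + wt a b (e j) l := Int.toNat_of_nonneg h2
    rw [h3] at h1
    simp only [List.map_cons, List.sum_cons]
    push_cast at h1
    linarith

/-- Weights of the letters of a word of blocks. -/
structure Good (a b : ℕ → σ) (K : ℕ) : Prop where
  haa : ∀ i < K, ∀ j < K, a i = a j → i = j
  hbb : ∀ i < K, ∀ j < K, b i = b j → i = j
  hab : ∀ i j, a i ≠ b j

variable {a b}

omit [Finite σ] in
theorem wt_W {K : ℕ} (hg : Good a b K) (n m : ℕ → ℕ) {i : ℕ} (hi : i < K) (k : ℕ) (hk : k ≤ K) :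
    ((W a b n m k).map (wt a b i)).sum = if i < k then (n i : ℤ) - m i else 0 := by
  induction k with
  | zero => simp [W]
  | succ k ih =>
    simp only [W, List.map_append, List.sum_append, ih (by omega), List.map_replicate,
      List.sum_replicate, nsmul_eq_mul]
    by_cases hik : i = k
    · subst hik
      have h1 : wt a b i (a i) = 1 := by simp [wt]
      have h2 : wt a b i (b i) = -1 := by
        simp [wt, (hg.hab i i).symm]
      rw [h1, h2]
      simp
      ring
    · have h1 : wt a b i (a k) = 0 := by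
        have e1 : a k ≠ a i := fun h => hik (hg.haa k (by omega) i hi h).symm
        simp [wt, e1, hg.hab k i]
      have h2 : wt a b i (b k) = 0 := by
        have e1 : b k ≠ b i := fun h => hik (hg.hbb k (by omega) i hi h).symm
        simp [wt, e1, (hg.hab i k).symm]
      rw [h1, h2]
      by_cases h3 : i < k
      · simp [h3, show i < k + 1 by omega]
      · simp [h3, show ¬ i < k + 1 by omega]

omit [Finite σ] in
theorem NP_W {K : ℕ} (hg : Good a b K) (n m : ℕ → ℕ) {i : ℕ} (hi : i < K) (hnm : m i ≤ n i)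
    (k : ℕ) (hk : k ≤ K) : NP (wt a b i) 0 (W a b n m k) := by
  induction k with
  | zero => trivial
  | succ k ih =>
    simp only [W]
    rw [NP_append, NP_append, List.map_append, List.sum_append, wt_W hg n m hi k (by omega)]
    have hnm' : (m i : ℤ) ≤ n i := by exact_mod_cast hnm
    refine ⟨⟨ih (by omega), ?_⟩, ?_⟩
    · apply NP_replicate_nonneg
      · split_ifs <;> omega
      · by_cases hik : i = k
        · subst hik; simp [wt]
        · have e1 : a k ≠ a i := fun h => hik (hg.haa k (by omega) i hi h).symm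
          simp [wt, e1, hg.hab k i]
    · rw [List.map_replicate, List.sum_replicate, nsmul_eq_mul]
      by_cases hik : i = k
      · subst hik
        have h1 : wt a b i (a i) = 1 := by simp [wt]
        have h2 : wt a b i (b i) = -1 := by simp [wt, (hg.hab i i).symm]
        apply NP_replicate_neg _ h2
        rw [h1, if_neg (lt_irrefl i)]
        simpa using hnm'
      · have h1 : wt a b i (a k) = 0 := by
          have e1 : a k ≠ a i := fun h => hik (hg.haa k (by omega) i hi h).symm
          simp [wt, e1, hg.hab k i]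
        have h2 : wt a b i (b k) = 0 := by
          have e1 : b k ≠ b i := fun h => hik (hg.hbb k (by omega) i hi h).symm
          simp [wt, e1, (hg.hab i k).symm]
        apply NP_replicate_nonneg
        · rw [h1]
          split_ifs <;> simp <;> omega
        · rw [h2]

end Pool.Agent.Q255.VA
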